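import Pool.Agent.K4H28.SP.Nine
import Pool.Agent.TH941.MR.Lead

set_option autoImplicit false
set_option linter.unusedSectionVars false

/-!
# Restriction to the exceptional curves of large linear systems
-/

namespace Pool.Agent.K4H28.RS

open MvPolynomial Module
open Pool.Agent.K4H28.SP (gd gd_upper gd_ge gd_upper9 gd_spec Red3 gd_two)

variable {s : ℕ} {m : Fin s → ℕ} {d : ℕ}

/-- The upper bound for the dimension, with bounds for the two largest multiplicities. -/
theorem gd_bd {i₀ : Fin s} {a b : ℕ} (hba : b ≤ a) (ha : m i₀ ≤ a) (hb : ∀ j, j ≠ i₀ → m j ≤ b) :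
    gd m d + ∑ i, (m i + 1).choose 2 = (d + 2).choose 2 ∨ gd m d ≤ (a - 1) * (b - 1) := by
  classical
  rcases Nat.lt_or_ge (m i₀) b with h | h
  · obtain ⟨i₁, -, hi₁⟩ := Finset.exists_max_image Finset.univ m ⟨i₀, Finset.mem_univ _⟩
    have h1 := gd_upper (m := m) (d := d) (i₀ := i₁) (b := m i₁)
      (fun j _ => hi₁ j (Finset.mem_univ _)) le_rfl
    have h3 : m i₁ ≤ b := by
      by_cases hi : i₁ = i₀
      · rw [hi]
        exact h.le
      · exact hb _ hi
    exact h1.imp_right fun h2 => h2.trans (Nat.mul_le_mul (by omega) (by omega))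
  · have h1 := gd_upper (m := m) (d := d) (i₀ := i₀) hb h
    exact h1.imp_right fun h2 => h2.trans (Nat.mul_le_mul_right _ (by omega))

theorem gd_exact {N : ℕ} (h : gd m d + ∑ i, (m i + 1).choose 2 = (d + 2).choose 2 ∨ gd m d ≤ N)
    (hN : N + ∑ i, (m i + 1).choose 2 ≤ (d + 2).choose 2) :
    gd m d + ∑ i, (m i + 1).choose 2 = (d + 2).choose 2 := by
  have := gd_ge (m := m) (d := d)
  omega

theorem sum_up (w : Fin s → ℕ) (j : Fin s) :
    ∑ i, (Function.update w j (w j + 1) i + 1).choose 2 =
      (w j + 1) + ∑ i, (w i + 1).choose 2 := by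
  rw [← Finset.add_sum_erase _ _ (Finset.mem_univ j),
    ← Finset.add_sum_erase Finset.univ (fun i => (w i + 1).choose 2) (Finset.mem_univ j)]
  rw [Function.update_self, Nat.choose_succ_succ (w j + 1) 1, Nat.choose_one_right]
  have : ∑ x ∈ Finset.univ.erase j, (Function.update w j (w j + 1) x + 1).choose 2 =
      ∑ x ∈ Finset.univ.erase j, (w x + 1).choose 2 :=
    Finset.sum_congr rfl fun x hx => by rw [Function.update_of_ne (Finset.ne_of_mem_erase hx)]
  rw [this]
  simp only [Nat.succ_eq_add_one, Nat.reduceAdd]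
  omega

section

variable {k : Type} [Field k] {n : ℕ} {P : Fin n → Fin 2 → k} {w : Fin n → ℕ} {j : Fin n}

open Pool.Agent.TH941.MR (rho forms)

theorem fin_forms (v : Fin n → ℕ) : Module.Finite k (forms P d v) := by
  have hfin3 : Module.Finite k (homogeneousSubmodule (Fin 3) k d) :=
    Module.Finite.iff_fg.2 (homogeneousSubmodule_fg (Fin 3) k d)
  have hle : forms P d v ≤ homogeneousSubmodule (Fin 3) k d := inf_le_left
  exact Submodule.finiteDimensional_of_le hle

theorem surj_of (h : finrank k ↥(forms P d (Function.update w j (w j + 1))) + (w j + 1) ≤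
    finrank k ↥(forms P d w)) : Function.Surjective (rho P d w j) := by
  classical
  have hκ : (LinearMap.ker (rho P d w j)).map (forms P d w).subtype ≤
      forms P d (Function.update w j (w j + 1)) := by
    rintro _ ⟨F, hF, rfl⟩
    exact Pool.Agent.TH941.MR.ker_rho (LinearMap.mem_ker.1 hF)
  have hker : finrank k (LinearMap.ker (rho P d w j)) ≤
      finrank k ↥(forms P d (Function.update w j (w j + 1))) := by
    have := fin_forms (P := P) (d := d) (Function.update w j (w j + 1))
    rw [← Submodule.finrank_map_subtype_eq]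
    exact Submodule.finrank_mono hκ
  have := fin_forms (P := P) (d := d) w
  obtain ⟨hfin2, hb⟩ := Pool.Agent.TH941.MR.binary_le (k := k) (w j)
  have hrn := LinearMap.finrank_range_add_finrank_ker (rho P d w j)
  rw [← LinearMap.range_eq_top]
  apply Submodule.eq_top_of_finrank_eq
  have hle2 := Submodule.finrank_le (LinearMap.range (rho P d w j))
  omega

/-- the kernel contains the curves with a higher multiplicity -/
theorem up_ker : forms P d (Function.update w j (w j + 1)) ≤
    (LinearMap.ker (rho P d w j)).map (forms P d w).subtype := by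
  classical
  rintro F ⟨hF1, hF2⟩
  have hF2' : F ∈ (⨅ i : Fin n, (Ideal.span {X 0 - C (P i 0) * X 2,
      X 1 - C (P i 1) * X 2} : Ideal (MvPolynomial (Fin 3) k)) ^
        (Function.update w j (w j + 1) i)) := hF2
  rw [Ideal.mem_iInf] at hF2'
  have hle : ∀ i, w i ≤ Function.update w j (w j + 1) i := by
    intro i
    by_cases hi : i = j
    · subst hi
      rw [Function.update_self]
      omega
    · rw [Function.update_of_ne hi]
  have hmem : F ∈ forms P d w := by
    refine ⟨hF1, ?_⟩
    show F ∈ (⨅ i : Fin n, (Ideal.span {X 0 - C (P i 0) * X 2,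
      X 1 - C (P i 1) * X 2} : Ideal (MvPolynomial (Fin 3) k)) ^ (w i))
    rw [Ideal.mem_iInf]
    exact fun i => Ideal.pow_le_pow_right (hle i) (hF2' i)
  refine ⟨⟨F, hmem⟩, ?_, rfl⟩
  refine LinearMap.mem_ker.2 (Subtype.ext ?_)
  rw [Pool.Agent.TH941.MR.rho_apply]
  have h1 := hF2' j
  rw [Function.update_self] at h1
  exact Pool.Agent.TH941.MR.loc_of_mem h1 (Nat.lt_succ_self _)

theorem ker_ge : finrank k ↥(forms P d (Function.update w j (w j + 1))) ≤
    finrank k (LinearMap.ker (rho P d w j)) := by
  have := fin_forms (P := P) (d := d) w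
  rw [← Submodule.finrank_map_subtype_eq]
  exact Submodule.finrank_mono up_ker

theorem not_inj (h : 1 ≤ finrank k ↥(forms P d (Function.update w j (w j + 1)))) :
    ¬ Function.Injective (rho P d w j) := by
  intro h1
  rw [← LinearMap.ker_eq_bot] at h1
  have h2 := ker_ge (P := P) (d := d) (w := w) (j := j)
  rw [h1, finrank_bot] at h2
  omega

noncomputable def ee (m : ℕ) (i : Fin (m + 1)) : Fin 2 →₀ ℕ :=
  Finsupp.single 0 (i : ℕ) + Finsupp.single 1 (m - i)

theorem ee_zero (m : ℕ) (i : Fin (m + 1)) : ee m i 0 = i := by simp [ee]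

theorem bin_ge (m : ℕ) : m + 1 ≤ finrank k (homogeneousSubmodule (Fin 2) k m) := by
  classical
  obtain ⟨hfin2, -⟩ := Pool.Agent.TH941.MR.binary_le (k := k) m
  let g : (Fin (m + 1) → k) →ₗ[k] homogeneousSubmodule (Fin 2) k m :=
    LinearMap.codRestrict _ (∑ i : Fin (m + 1),
      (monomial (ee m i) : k →ₗ[k] MvPolynomial (Fin 2) k) ∘ₗ LinearMap.proj i) (fun c => by
        rw [LinearMap.sum_apply]
        refine Submodule.sum_mem _ fun i _ => isHomogeneous_monomial _ ?_
        rw [Finsupp.degree_eq_sum, Fin.sum_univ_two]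
        simp [ee]
        omega)
  have hg : Function.Injective g := by
    rw [← LinearMap.ker_eq_bot, LinearMap.ker_eq_bot']
    intro c hc
    funext i
    have h1 := congrArg (fun x : homogeneousSubmodule (Fin 2) k m =>
      coeff (ee m i) (x : MvPolynomial (Fin 2) k)) hc
    simp only [ZeroMemClass.coe_zero, coeff_zero] at h1
    have h2 : (g c : MvPolynomial (Fin 2) k) = ∑ i : Fin (m + 1), monomial (ee m i) (c i) := by
      change (∑ i : Fin (m + 1),
        (monomial (ee m i) : k →ₗ[k] MvPolynomial (Fin 2) k) ∘ₗ LinearMap.proj i) c = _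
      rw [LinearMap.sum_apply]
      rfl
    rw [h2, coeff_sum, Finset.sum_eq_single i] at h1
    · simpa using h1
    · intro l _ hl
      rw [coeff_monomial, if_neg]
      intro h3
      apply hl
      have h4 := DFunLike.congr_fun h3 0
      rw [ee_zero, ee_zero] at h4
      exact Fin.ext h4
    · intro h3
      exact absurd (Finset.mem_univ _) h3
  have := LinearMap.finrank_le_finrank_of_injective hg
  rwa [Module.finrank_fin_fun] at this

theorem not_surj (h : finrank k ↥(forms P d w) <
    finrank k ↥(forms P d (Function.update w j (w j + 1))) + (w j + 1)) :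
    ¬ Function.Surjective (rho P d w j) := by
  intro h1
  have := fin_forms (P := P) (d := d) w
  have h2 := ker_ge (P := P) (d := d) (w := w) (j := j)
  have hrn := LinearMap.finrank_range_add_finrank_ker (rho P d w j)
  rw [LinearMap.range_eq_top.2 h1, finrank_top] at hrn
  have h3 := bin_ge (k := k) (w j)
  omega

/-- a surjective restriction map has no base points -/
theorem no_base (h : Function.Surjective (rho P d w j)) (v : Fin 2 → k) (hv : v ≠ 0) :
    ∃ F : forms P d w, eval v ((rho P d w j F : homogeneousSubmodule (Fin 2) k (w j)) :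
      MvPolynomial (Fin 2) k) ≠ 0 := by
  obtain ⟨i, hi⟩ := Function.ne_iff.1 hv
  obtain ⟨F, hF⟩ := h ⟨X i ^ w j, by
    have := (isHomogeneous_X k i).pow (w j)
    rwa [one_mul] at this⟩
  refine ⟨F, ?_⟩
  rw [hF]
  simp only [map_pow, eval_X]
  exact pow_ne_zero _ hi

end

end Pool.Agent.K4H28.RS
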